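import Pool.Agent.H52.LT5

namespace Pool.Agent.Results.MP_b2749c_lc.Undec

open Equiv Pool.Agent.H52.LT Pool.Agent.H38.CM

theorem rep_comp {α : Type} [Primcodable α] (a : α) {f : ℕ → ℕ} (hf : Computable f) :
    Computable fun n => List.replicate (2 ^ f n) a := by
  have h1 : Primrec fun m : ℕ => List.replicate m a :=
    (Primrec.list_map Primrec.list_range (Primrec.const a).to₂).of_eq fun m => by simp
  have h2 : Primrec fun m : ℕ => 2 ^ m :=
    (Primrec₂.unpaired'.1 Nat.Primrec.pow).comp (Primrec.const 2) Primrec.id
  exact h1.to_comp.comp (h2.to_comp.comp hf)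

theorem hB_comp {Q α : Type} [Primcodable α] (M : Mach Q) (th : ℕ → Q → ℕ)
    (ht : ∀ s, Computable fun n => th n s) (F : Gn Q × Bool → α) (i : Gn Q) (b : B Q) :
    Computable fun n => (hB M (th n) i b).map F := by
  have hc : ∀ s e, Computable fun n => (cj (th n) s e).map F := fun s e => by
    simp only [cj, List.map_append, List.map_replicate]
    exact Computable.list_append.comp (Computable.list_append.comp (rep_comp _ (ht s))
      (Computable.const _)) (rep_comp _ (ht s))
  cases i with
  | hd q =>
    simp only [hB]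
    split_ifs
    · simp only [wd, List.map_append]
      exact Computable.list_append.comp (Computable.list_append.comp (Computable.list_append.comp
        (hc _ _) (Computable.const _)) (hc _ _)) (Computable.const _)
    · exact Computable.const _
  | _ => simp only [hB]; exact Computable.const _

theorem result : ¬ ∃ f : ℕ × List (List ℕ × List (List (ℕ × Bool))) →. Bool, Partrec f ∧
    ∀ (d k : ℕ) (σ : Fin k → Perm (Fin d)) (h : Fin k → Fin d → List (Fin k × Bool)), 2 ≤ d →
      ∃ b ∈ f (code σ h), (b = true ↔ LevelTransitive σ h) := by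
  rintro ⟨f, hf, H⟩
  obtain ⟨w, hw⟩ := exists_undec
  apply hw
  have := Pool.Agent.H30.MulM.St.finite w
  set Q := Option (Option (Pool.Agent.H30.MulM.St w))
  obtain ⟨d, ⟨eX⟩⟩ := Finite.exists_equiv_fin (XX Q)
  obtain ⟨k, ⟨eI⟩⟩ := Finite.exists_equiv_fin (Gn Q)
  have hd : 2 ≤ d := by
    have := Fintype.one_lt_card_iff_nontrivial.2 eX.symm.nontrivial
    rw [Fintype.card_fin] at this
    exact this
  let σ : Fin k → Perm (Fin d) := fun i => eX.permCongr (sg (MM w) (eI.symm i))
  let h : ℕ → Fin k → Fin d → List (Fin k × Bool) := fun n i x =>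
    (hh (MM w) (thM w n) (eI.symm i) (eX.symm x)).map fun a => (eI a.1, a.2)
  have hL : ∀ n, LevelTransitive σ (h n) ↔ ¬ ∃ u, Ev w (init n) u := by
    intro n
    rw [← halt_iff, ← lt_iff_run _ _ (wfM w n)]
    exact ⟨lt_of_map _ _ _ _ eX.symm eI.symm (fun i x => by simp [σ])
      (fun i x => by simp [h, Function.comp_def]),
      lt_of_map _ _ _ _ eX eI (fun i x => by simp [σ]) (fun i x => by simp [h])⟩
  have hc : Computable fun n => code σ (h n) := by
    refine (Computable.const d).pair (Computable.list_ofFn fun i =>
      (Computable.const _).pair (Computable.list_ofFn fun x => ?_))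
    simp only [h, List.map_map, hh]
    refine hB_comp _ (thM w) ?_ _ _ _
    rintro (_ | _ | s)
    exacts [Computable.const _, Computable.id, Computable.const _]
  choose g hg1 hg2 using fun n => H d k σ (h n) hd
  have hg : Computable g := (hf.comp hc).of_eq_tot hg1
  refine ComputablePred.computable_iff.2 ⟨fun n => !g n, (Primrec.not.to_comp.comp hg), ?_⟩
  funext n
  have := (hg2 n).trans (hL n)
  cases e : g n <;> simp_all

end Pool.Agent.Results.MP_b2749c_lc.Undec
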